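import Pool.Agent.N197.Pln.QMain

/-!
# Cyclic covers of the quadric cone with three sections as branch curves: a conic bundle
-/

namespace Pool.Agent.U158.Hirz

open Pool.Agent.N197.Pln MvPolynomial IntermediateField

/-- `f = c x + q (y)` with `c ≠ 0` and `q` of degree at most two -/
def IsSection (f : MvPolynomial (Fin 2) ℂ) (c q₀ q₁ q₂ : ℂ) : Prop :=
  c ≠ 0 ∧ f = C c * X 0 + (C q₀ + C q₁ * X 1 + C q₂ * X 1 ^ 2)

theorem IsSection.aeval {Ω : Type} [Field Ω] [Algebra ℂ Ω] {f : MvPolynomial (Fin 2) ℂ}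
    {c q₀ q₁ q₂ : ℂ} (h : IsSection f c q₀ q₁ q₂) (x y : Ω) :
    MvPolynomial.aeval ![x, y] f = algebraMap ℂ Ω c * x +
      (algebraMap ℂ Ω q₀ + algebraMap ℂ Ω q₁ * y + algebraMap ℂ Ω q₂ * y ^ 2) := by
  rw [h.2]
  simp

theorem const_mem {Ω : Type} [Field Ω] [Algebra ℂ Ω] (K : IntermediateField ℂ Ω) (c : ℂ) :
    algebraMap ℂ Ω c ∈ K := K.algebraMap_mem c

/-- a quadratic polynomial over `cl s` -/
theorem exists_split_quadratic {Ω : Type} [Field Ω] [Algebra ℂ Ω] [IsAlgClosed Ω] {s t : Ω}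
    (hst : AlgebraicIndependent ℂ ![s, t]) {a₀ a₁ a₂ : Ω} (h0 : a₀ ∈ cl s) (h1 : a₁ ∈ cl s)
    (h2 : a₂ ∈ cl s) :
    ∃ z ∈ cl s ⊔ cl t, z ∉ cl s ∧ Split s t (a₀ + a₁ * z + a₂ * z ^ 2) := by
  let p : Polynomial (cl s) := Polynomial.C ⟨a₀, h0⟩ + Polynomial.C ⟨a₁, h1⟩ * Polynomial.X +
    Polynomial.C ⟨a₂, h2⟩ * Polynomial.X ^ 2
  obtain ⟨z, hz, hz', h⟩ := exists_split_values hst {()} (fun _ => p) (by
    rw [Finset.sum_singleton]
    simp only [p]
    compute_degree)
  refine ⟨z, hz, hz', ?_⟩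
  have h3 := h () (Finset.mem_singleton_self _)
  simpa [p] using h3

theorem quad_coeffs {A B D : ℂ} (h : Polynomial.C A + Polynomial.C B * Polynomial.X +
    Polynomial.C D * Polynomial.X ^ 2 = 0) : A = 0 ∧ B = 0 ∧ D = 0 := by
  refine ⟨?_, ?_, ?_⟩
  · have := congrArg (fun g => Polynomial.coeff g 0) h
    simpa using this
  · have := congrArg (fun g => Polynomial.coeff g 1) h
    simpa [Polynomial.coeff_C, Polynomial.coeff_X_pow, Polynomial.coeff_C_mul] using this
  · have := congrArg (fun g => Polynomial.coeff g 2) h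
    simpa [Polynomial.coeff_C, Polynomial.coeff_X_pow, Polynomial.coeff_C_mul,
      Polynomial.coeff_X] using this

theorem conic {ι : Type} [Fintype ι] [DecidableEq ι] {n : ℕ} [NeZero n]
    {f : ι → MvPolynomial (Fin 2) ℂ} {a : ι → ZMod n} {i j l : ι} (hij : i ≠ j) (hil : i ≠ l)
    (hjl : j ≠ l) (hS : ∀ k, k ≠ i → k ≠ j → k ≠ l → (a k).val = 0) {m : ℕ}
    (hi : (a i).val = m) (hjla : (a j).val + (a l).val = n) {c c' c'' : ℂ} {q₀ q₁ q₂ : ℂ} {r₀ r₁ r₂ : ℂ}
    {u₀ u₁ u₂ : ℂ} (hfi : IsSection (f i) c q₀ q₁ q₂) (hfj : IsSection (f j) c' r₀ r₁ r₂)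
    (hfl : IsSection (f l) c'' u₀ u₁ u₂) : AffineDominatedByCurves n f a := by
  obtain ⟨Ω, _, _, _, s, t, hst⟩ := exists_field
  have hn : n ≠ 0 := NeZero.ne n
  have hs : Transcendental ℂ s := ((pair_iff s t).mp hst).1
  have hprod : ∀ x y : Ω, ∏ k, MvPolynomial.aeval ![x, y] (f k) ^ (a k).val =
      MvPolynomial.aeval ![x, y] (f i) ^ m * (MvPolynomial.aeval ![x, y] (f j) ^ (a j).val *
        MvPolynomial.aeval ![x, y] (f l) ^ (a l).val) := by
    intro x y
    rw [← Finset.prod_subset (Finset.subset_univ {i, j, l})]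
    · rw [Finset.prod_insert (by simp [hij, hil]), Finset.prod_insert (by simp [hjl]),
        Finset.prod_singleton, hi]
    · intro k _ hk
      simp only [Finset.mem_insert, Finset.mem_singleton, not_or] at hk
      rw [hS k hk.1 hk.2.1 hk.2.2, pow_zero]
  -- the degenerate case
  by_cases hdeg : c' * u₀ - c'' * r₀ = 0 ∧ c' * u₁ - c'' * r₁ = 0 ∧ c' * u₂ - c'' * r₂ = 0
  · have hjl' : ∀ x y : Ω, MvPolynomial.aeval ![x, y] (f j) =
        algebraMap ℂ Ω (c' / c'') * MvPolynomial.aeval ![x, y] (f l) := by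
      intro x y
      rw [hfj.aeval, hfl.aeval]
      have hc : c'' ≠ 0 := hfl.1
      have e0 : r₀ = c' / c'' * u₀ := by
        field_simp
        linear_combination -hdeg.1
      have e1 : r₁ = c' / c'' * u₁ := by
        field_simp
        linear_combination -hdeg.2.1
      have e2 : r₂ = c' / c'' * u₂ := by
        field_simp
        linear_combination -hdeg.2.2
      have e3 : c' = c' / c'' * c'' := by field_simp
      rw [e0, e1, e2]
      nth_rewrite 1 [e3]
      simp only [map_mul]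
      ring
    have hsm := self_mem_cl s
    obtain ⟨x, hx, hx', hsp⟩ := exists_split_quadratic hst
      (a₀ := algebraMap ℂ Ω q₀ + algebraMap ℂ Ω q₁ * s + algebraMap ℂ Ω q₂ * s ^ 2)
      (a₁ := algebraMap ℂ Ω c) (a₂ := 0)
      (add_mem (add_mem (const_mem _ _) (mul_mem (const_mem _ _) hsm))
        (mul_mem (const_mem _ _) (pow_mem hsm 2))) (const_mem _ _) (zero_mem _)
    have hsp' : Split s t (MvPolynomial.aeval ![x, s] (f i) ^ m *
        algebraMap ℂ Ω (c' / c'') ^ (a j).val) := by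
      refine (Split.pow ?_ m).mul (Split.left (pow_mem (const_mem _ _) _))
      rw [hfi.aeval]
      have e : algebraMap ℂ Ω c * x + (algebraMap ℂ Ω q₀ + algebraMap ℂ Ω q₁ * s +
          algebraMap ℂ Ω q₂ * s ^ 2) = algebraMap ℂ Ω q₀ + algebraMap ℂ Ω q₁ * s +
          algebraMap ℂ Ω q₂ * s ^ 2 + algebraMap ℂ Ω c * x + 0 * x ^ 2 := by ring
      rw [e]
      exact hsp
    obtain ⟨w, hw, hwn⟩ := hsp'.root hn
    have hle : cl s ≤ cl s ⊔ cl t := le_sup_left
    have hsmem : s ∈ cl s ⊔ cl t := hle hsm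
    have hfl' : MvPolynomial.aeval ![x, s] (f l) ∈ cl s ⊔ cl t := by
      rw [hfl.aeval]
      exact add_mem (mul_mem (const_mem _ _) hx) (add_mem (add_mem (const_mem _ _)
        (mul_mem (const_mem _ _) hsmem)) (mul_mem (const_mem _ _) (pow_mem hsmem 2)))
    obtain ⟨K₁, K₂, hK, h1, h2, h3⟩ := exists_curves hst hx hsmem (mul_mem hw hfl')
    refine ⟨Ω, inferInstance, inferInstance, K₁, K₂, hK, x, h1, s, h2,
      w * MvPolynomial.aeval ![x, s] (f l), h3, pair_symm (pair_of_cl hsm hs hx'), ?_⟩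
    rw [hprod, mul_pow, hwn, hjl', mul_pow, mul_assoc, mul_assoc, ← pow_add, hjla]
  · -- the conic bundle
    have hsm := self_mem_cl s
    have hle : cl s ≤ cl s ⊔ cl t := le_sup_left
    have hsmem : s ∈ cl s ⊔ cl t := hle hsm
    set D : Ω := algebraMap ℂ Ω c' - s * algebraMap ℂ Ω c'' with hD
    have hD0 : D ≠ 0 := by
      intro h0
      have hc : algebraMap ℂ Ω c'' ≠ 0 := by
        rw [Ne, map_eq_zero]
        exact hfl.1
      have h1 : s = algebraMap ℂ Ω (c' / c'') := by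
        rw [map_div₀, eq_div_iff hc]
        linear_combination -h0
      apply hs
      rw [h1]
      exact isAlgebraic_algebraMap _
    have hDm : D ∈ cl s := sub_mem (const_mem _ _) (mul_mem hsm (const_mem _ _))
    -- the coefficients of the quadratic polynomial
    have coef : ∀ q r u : ℂ, D⁻¹ * (-(algebraMap ℂ Ω c) * algebraMap ℂ Ω r +
        s * algebraMap ℂ Ω c * algebraMap ℂ Ω u + D * algebraMap ℂ Ω q) ∈ cl s := by
      intro q r u
      exact mul_mem (inv_mem hDm) (add_mem (add_mem (mul_mem (neg_mem (const_mem _ _))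
        (const_mem _ _)) (mul_mem (mul_mem hsm (const_mem _ _)) (const_mem _ _)))
        (mul_mem hDm (const_mem _ _)))
    obtain ⟨y, hy, hy', hsp⟩ := exists_split_quadratic hst (coef q₀ r₀ u₀) (coef q₁ r₁ u₁)
      (coef q₂ r₂ u₂)
    set R : Ω := algebraMap ℂ Ω r₀ + algebraMap ℂ Ω r₁ * y + algebraMap ℂ Ω r₂ * y ^ 2 with hR
    set U : Ω := algebraMap ℂ Ω u₀ + algebraMap ℂ Ω u₁ * y + algebraMap ℂ Ω u₂ * y ^ 2 with hU
    have hRm : R ∈ cl s ⊔ cl t := add_mem (add_mem (const_mem _ _) (mul_mem (const_mem _ _) hy))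
      (mul_mem (const_mem _ _) (pow_mem hy 2))
    have hUm : U ∈ cl s ⊔ cl t := add_mem (add_mem (const_mem _ _) (mul_mem (const_mem _ _) hy))
      (mul_mem (const_mem _ _) (pow_mem hy 2))
    set x : Ω := (s * U - R) / D with hx
    have hxm : x ∈ cl s ⊔ cl t := div_mem (sub_mem (mul_mem hsmem hUm) hRm) (hle hDm)
    have hfi' : MvPolynomial.aeval ![x, y] (f i) = D⁻¹ * (-(algebraMap ℂ Ω c) * algebraMap ℂ Ω r₀ +
        s * algebraMap ℂ Ω c * algebraMap ℂ Ω u₀ + D * algebraMap ℂ Ω q₀) +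
        D⁻¹ * (-(algebraMap ℂ Ω c) * algebraMap ℂ Ω r₁ +
        s * algebraMap ℂ Ω c * algebraMap ℂ Ω u₁ + D * algebraMap ℂ Ω q₁) * y +
        D⁻¹ * (-(algebraMap ℂ Ω c) * algebraMap ℂ Ω r₂ +
        s * algebraMap ℂ Ω c * algebraMap ℂ Ω u₂ + D * algebraMap ℂ Ω q₂) * y ^ 2 := by
      rw [hfi.aeval, hx, hR, hU]
      field_simp
      ring
    have hfl' : MvPolynomial.aeval ![x, y] (f l) = (algebraMap ℂ Ω c' * U - algebraMap ℂ Ω c'' * R) /
        D := by
      rw [hfl.aeval, hx, ← hU]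
      field_simp
      rw [hD]
      ring
    have hfj' : MvPolynomial.aeval ![x, y] (f j) = s * MvPolynomial.aeval ![x, y] (f l) := by
      rw [hfj.aeval, hfl', hx, ← hR]
      field_simp
      rw [hD]
      ring
    have hsy : AlgebraicIndependent ℂ ![s, y] := pair_of_cl hsm hs hy'
    have hy1 : Transcendental ℂ y := ((pair_iff y s).mp (pair_symm hsy)).1
    -- `f l` does not vanish
    have hfl0 : MvPolynomial.aeval ![x, y] (f l) ≠ 0 := by
      intro h0
      rw [hfl', div_eq_zero_iff, or_iff_left hD0] at h0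
      let p : Polynomial ℂ := Polynomial.C (c' * u₀ - c'' * r₀) +
        Polynomial.C (c' * u₁ - c'' * r₁) * Polynomial.X +
        Polynomial.C (c' * u₂ - c'' * r₂) * Polynomial.X ^ 2
      have hp : Polynomial.aeval y p = 0 := by
        simp only [p, map_add, map_mul, Polynomial.aeval_C, Polynomial.aeval_X, map_pow, map_sub]
        rw [← h0, hU, hR]
        ring
      have hp0 : p = 0 := by
        by_contra hne
        exact hy1 ⟨p, hne, hp⟩
      exact hdeg (quad_coeffs hp0)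
    have hxy : AlgebraicIndependent ℂ ![y, x] := by
      refine pair_of_cl (self_mem_cl y) hy1 ?_
      intro hxy
      have hsn := notMem_cl (pair_symm hsy)
      apply hsn
      have h1 : s = MvPolynomial.aeval ![x, y] (f j) / MvPolynomial.aeval ![x, y] (f l) := by
        rw [hfj', mul_div_assoc, div_self hfl0, mul_one]
      have hym := self_mem_cl y
      rw [h1, hfj.aeval, hfl.aeval]
      refine div_mem ?_ ?_
      · exact add_mem (mul_mem (const_mem _ _) hxy) (add_mem (add_mem (const_mem _ _)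
          (mul_mem (const_mem _ _) hym)) (mul_mem (const_mem _ _) (pow_mem hym 2)))
      · exact add_mem (mul_mem (const_mem _ _) hxy) (add_mem (add_mem (const_mem _ _)
          (mul_mem (const_mem _ _) hym)) (mul_mem (const_mem _ _) (pow_mem hym 2)))
    rw [← hfi'] at hsp
    have hsp' : Split s t (MvPolynomial.aeval ![x, y] (f i) ^ m * s ^ (a j).val) :=
      (Split.pow hsp m).mul (Split.left (pow_mem hsm _))
    obtain ⟨w, hw, hwn⟩ := hsp'.root hn
    have hflm : MvPolynomial.aeval ![x, y] (f l) ∈ cl s ⊔ cl t := by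
      rw [hfl.aeval]
      exact add_mem (mul_mem (const_mem _ _) hxm) hUm
    obtain ⟨K₁, K₂, hK, h1, h2, h3⟩ := exists_curves hst hxm hy (mul_mem hw hflm)
    refine ⟨Ω, inferInstance, inferInstance, K₁, K₂, hK, x, h1, y, h2,
      w * MvPolynomial.aeval ![x, y] (f l), h3, pair_symm hxy, ?_⟩
    rw [hprod, mul_pow, hwn, hfj', mul_pow, mul_assoc, mul_assoc, ← pow_add, hjla]

end Pool.Agent.U158.Hirz
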